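import Pool.Agent.H586.AF.E

set_option autoImplicit false

/-!
# AH-JF (helper971 for helper586): far region, spin part, dominated convergence
-/

open MeasureTheory Filter Topology

namespace Pool.Agent.H971.AH

open Pool.Agent.H586.AF Pool.Agent.H586.AF.EE

/-- the half line -/
noncomputable abbrev hl : Measure ℝ := (volume : Measure ℝ).restrict (Set.Ioi (0:ℝ))

theorem exp_int : Integrable (fun x : ℝ => Real.exp (-(1 / 2) * x)) hl :=
  exp_neg_integrableOn_Ioi 0 (by norm_num : (0:ℝ) < 1 / 2)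

/-- scaling of a double integral -/
theorem scal2 (G : ℝ → ℝ → ℝ) {b : ℝ} (hb : 0 < b) :
    ∫ t in Set.Ioi (0 : ℝ), ∫ s in Set.Ioi (0 : ℝ), G t s =
      b ^ 2 * ∫ t in Set.Ioi (0 : ℝ), ∫ s in Set.Ioi (0 : ℝ), G (b * t) (b * s) := by
  have h1 : ∀ g : ℝ → ℝ, ∫ x in Set.Ioi (0:ℝ), g x = b * ∫ x in Set.Ioi (0:ℝ), g (b * x) := by
    intro g
    have h := integral_comp_mul_left_Ioi' g 0 hb
    rw [mul_zero, smul_eq_mul] at h
    exact h.symm
  rw [h1 (fun t => ∫ s in Set.Ioi (0 : ℝ), G t s)]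
  have h2 : ∀ t, ∫ s in Set.Ioi (0 : ℝ), G (b * t) s =
      b * ∫ s in Set.Ioi (0 : ℝ), G (b * t) (b * s) := fun t => h1 (fun s => G (b * t) s)
  simp only [h2]
  rw [integral_const_mul]
  ring

/-- pointwise bounds in the far region -/
theorem ptw {C0 C1 ε : ℝ} (hC0 : 1 ≤ C0) (hC1 : 1 ≤ C1) (hε : 0 < ε) {l u n1 n2 c d g h : ℝ}
    (hl : 2 ≤ l) (hu : ε < u) (hg0 : 0 ≤ g) (hg : g ≤ C1 / Real.sqrt (1 + l ^ 2 * u))
    (hh0 : 0 ≤ h) (hh' : h ≤ C1 / Real.sqrt (1 + l ^ 2 * u))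
    (h1 : |n1 - l * g| ≤ C0) (h2 : |n2 - l * g| ≤ C0)
    (h3 : |c - l * h| ≤ C0) (h4 : |d - l * h| ≤ C0)
    (h6 : l ^ 2 ≤ l ^ 2 * u → |d| ≤ C0 * Real.exp (-((l ^ 2 * u) / (2 * l ^ 2)))) :
    |n1 * n2 * c * d| ≤ 2 * (C1 / Real.sqrt ε + C0) ^ 4 * Real.exp (-(1 / 2) * u) := by
  have hl0 : 0 < l := by linarith
  have hsε : 0 < Real.sqrt ε := Real.sqrt_pos.2 hε
  have hs : l * Real.sqrt ε ≤ Real.sqrt (1 + l ^ 2 * u) := by
    apply Real.le_sqrt_of_sq_le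
    rw [mul_pow, Real.sq_sqrt hε.le]
    have : l ^ 2 * ε ≤ l ^ 2 * u := mul_le_mul_of_nonneg_left hu.le (by positivity)
    linarith
  have hs0 : 0 < Real.sqrt (1 + l ^ 2 * u) := lt_of_lt_of_le (by positivity) hs
  have hb : ∀ x, 0 ≤ x → x ≤ C1 / Real.sqrt (1 + l ^ 2 * u) → |l * x| ≤ C1 / Real.sqrt ε := by
    intro x hx0 hx
    rw [abs_of_nonneg (by positivity)]
    calc l * x ≤ l * (C1 / Real.sqrt (1 + l ^ 2 * u)) := mul_le_mul_of_nonneg_left hx hl0.le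
      _ ≤ l * (C1 / (l * Real.sqrt ε)) := by
          apply mul_le_mul_of_nonneg_left _ hl0.le
          exact div_le_div_of_nonneg_left (by linarith) (by positivity) hs
      _ = C1 / Real.sqrt ε := by field_simp
  have hlg := hb g hg0 hg
  have hlh := hb h hh0 hh'
  have key : ∀ x y : ℝ, |x - y| ≤ C0 → |y| ≤ C1 / Real.sqrt ε → |x| ≤ C1 / Real.sqrt ε + C0 := by
    intro x y hxy hy
    have e1 : x = (x - y) + y := by ring
    have e2 := abs_add_le (x - y) y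
    rw [← e1] at e2
    linarith
  have k1 := key _ _ h1 hlg
  have k2 := key _ _ h2 hlg
  have k3 := key _ _ h3 hlh
  have k4 := key _ _ h4 hlh
  obtain ⟨M, hM⟩ : ∃ M, M = C1 / Real.sqrt ε + C0 := ⟨_, rfl⟩
  rw [← hM] at k1 k2 k3 k4 ⊢
  have hM0 : C0 ≤ M := by
    rw [hM]
    have : 0 ≤ C1 / Real.sqrt ε := by positivity
    linarith
  have hexp : 0 < Real.exp (-(1 / 2) * u) := Real.exp_pos _
  have k5 : |d| ≤ 2 * M * Real.exp (-(1 / 2) * u) := by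
    rcases le_or_gt 1 u with hu1 | hu1
    · have e1 : l ^ 2 ≤ l ^ 2 * u := by nlinarith [sq_nonneg l]
      have e2 := h6 e1
      have e3 : -((l ^ 2 * u) / (2 * l ^ 2)) = -(1 / 2) * u := by field_simp
      rw [e3] at e2
      have e4 : C0 * Real.exp (-(1 / 2) * u) ≤ 2 * M * Real.exp (-(1 / 2) * u) := by
        apply mul_le_mul_of_nonneg_right _ hexp.le
        linarith
      linarith
    · have e1 := Real.add_one_le_exp (-(1 / 2) * u)
      have e2 : 1 ≤ 2 * Real.exp (-(1 / 2) * u) := by linarith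
      have e3 : M * 1 ≤ M * (2 * Real.exp (-(1 / 2) * u)) :=
        mul_le_mul_of_nonneg_left e2 (by linarith)
      linarith
  have hM0' : 0 ≤ M := by linarith
  rw [abs_mul, abs_mul, abs_mul]
  calc |n1| * |n2| * |c| * |d| ≤ M * M * M * (2 * M * Real.exp (-(1 / 2) * u)) :=
        mul_le_mul (mul_le_mul (mul_le_mul k1 k2 (abs_nonneg _) hM0') k3 (abs_nonneg _)
          (mul_nonneg hM0' hM0')) k5 (abs_nonneg _)
          (mul_nonneg (mul_nonneg hM0' hM0') hM0')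
    _ = 2 * M ^ 4 * Real.exp (-(1 / 2) * u) := by ring

theorem tjf (hH : S_H) : S_JF := by
  intro C0 hC0 n1 n2 c d hJ hn hcd ε hε
  obtain ⟨C1, hC1, -, hbd, -, -, -⟩ := hH
  obtain ⟨FF, hFF⟩ : ∃ FF : ℕ → ℝ × ℝ → ℝ, FF = fun L p => if p.1 + p.2 ≤ ε then 0 else
    n1 L ((L:ℝ) ^ 2 * p.1) ((L:ℝ) ^ 2 * p.2) * n2 L ((L:ℝ) ^ 2 * p.1) ((L:ℝ) ^ 2 * p.2) *
      c L ((L:ℝ) ^ 2 * (p.1 + p.2)) * d L ((L:ℝ) ^ 2 * (p.1 + p.2)) := ⟨_, rfl⟩
  obtain ⟨K, hK⟩ : ∃ K : ℝ, K = 2 * (C1 / Real.sqrt ε + C0) ^ 4 := ⟨_, rfl⟩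
  have hK0 : 0 ≤ K := by
    rw [hK]
    positivity
  -- measurability
  have hmeas : ∀ L : ℕ, 2 ≤ L → Measurable (FF L) := by
    intro L hL
    have hj := hJ L hL
    rw [hFF]
    refine Measurable.ite (measurableSet_le (by fun_prop) measurable_const) measurable_const ?_
    have m1 : Continuous fun p : ℝ × ℝ => ((L:ℝ) ^ 2 * p.1, (L:ℝ) ^ 2 * p.2) := by fun_prop
    have m2 : Continuous fun p : ℝ × ℝ => (L:ℝ) ^ 2 * (p.1 + p.2) := by fun_prop
    have e1 : Continuous fun p : ℝ × ℝ => n1 L ((L:ℝ) ^ 2 * p.1) ((L:ℝ) ^ 2 * p.2) :=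
      hj.c1.comp m1
    have e2 : Continuous fun p : ℝ × ℝ => n2 L ((L:ℝ) ^ 2 * p.1) ((L:ℝ) ^ 2 * p.2) :=
      hj.c2.comp m1
    have e3 : Continuous fun p : ℝ × ℝ => c L ((L:ℝ) ^ 2 * (p.1 + p.2)) := hj.tr.cc.comp m2
    have e4 : Continuous fun p : ℝ × ℝ => d L ((L:ℝ) ^ 2 * (p.1 + p.2)) := hj.tr.cd.comp m2
    exact (((e1.mul e2).mul e3).mul e4).measurable
  -- domination
  have hbint : Integrable (fun p : ℝ × ℝ => K * (Real.exp (-(1 / 2) * p.1) *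
      Real.exp (-(1 / 2) * p.2))) (hl.prod hl) :=
    (exp_int.mul_prod exp_int).const_mul K
  have hdom : ∀ L : ℕ, 2 ≤ L → ∀ᵐ p ∂(hl.prod hl), ‖FF L p‖ ≤
      K * (Real.exp (-(1 / 2) * p.1) * Real.exp (-(1 / 2) * p.2)) := by
    intro L hL
    have hj := hJ L hL
    have hL2 : (2:ℝ) ≤ L := by exact_mod_cast hL
    have hl0 : (0:ℝ) < L := by linarith
    rw [Measure.prod_restrict]
    refine ae_restrict_of_forall_mem (measurableSet_Ioi.prod measurableSet_Ioi) ?_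
    rintro ⟨t, s⟩ ⟨ht, hs⟩
    have ht' : (0:ℝ) < t := ht
    have hs' : (0:ℝ) < s := hs
    rw [Real.norm_eq_abs, hFF]
    simp only
    rw [← Real.exp_add, ← mul_add]
    split_ifs with hts
    · rw [abs_zero]
      positivity
    · push Not at hts
      have hLt : 0 ≤ (L:ℝ) ^ 2 * t := by positivity
      have hLs : 0 ≤ (L:ℝ) ^ 2 * s := by positivity
      have hLts : 0 ≤ (L:ℝ) ^ 2 * (t + s) := by positivity
      have hadd : (L:ℝ) ^ 2 * t + (L:ℝ) ^ 2 * s = (L:ℝ) ^ 2 * (t + s) := by ring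
      obtain ⟨b1, b2, -, -, b5, b6⟩ := hbd _ hLts
      have q1 := hj.h1 _ _ hLt hLs
      have q2 := hj.h2 _ _ hLt hLs
      rw [hadd] at q1 q2
      rw [hK]
      exact ptw hC0 hC1 hε hL2 hts b5 b6 b1 b2 q1 q2 (hj.tr.hc _ hLts) (hj.tr.hd _ hLts)
        (fun h => hj.tr.ld _ h)
  -- pointwise convergence
  have hlim : ∀ᵐ p ∂(hl.prod hl), Tendsto (fun L => FF L p) atTop
      (𝓝 (limUnder atTop (fun L => FF L p))) := by
    rw [Measure.prod_restrict]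
    refine ae_restrict_of_forall_mem (measurableSet_Ioi.prod measurableSet_Ioi) ?_
    rintro ⟨t, s⟩ ⟨ht, hs⟩
    have ht' : (0:ℝ) < t := ht
    have hs' : (0:ℝ) < s := hs
    apply tendsto_nhds_limUnder
    rw [hFF]
    simp only
    by_cases hts : t + s ≤ ε
    · simp only [if_pos hts]
      exact ⟨0, tendsto_const_nhds⟩
    · simp only [if_neg hts]
      obtain ⟨⟨l1, g1⟩, ⟨l2, g2⟩⟩ := hn t s ht' hs'
      obtain ⟨⟨l3, g3⟩, ⟨l4, g4⟩⟩ := hcd (t + s) (by linarith)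
      exact ⟨_, ((g1.mul g2).mul g3).mul g4⟩
  have hconv := tendsto_integral_filter_of_dominated_convergence
    (fun p : ℝ × ℝ => K * (Real.exp (-(1 / 2) * p.1) * Real.exp (-(1 / 2) * p.2)))
    ((eventually_ge_atTop 2).mono (fun L hL => (hmeas L hL).aestronglyMeasurable))
    ((eventually_ge_atTop 2).mono hdom) hbint hlim
  refine ⟨_, hconv.congr' ?_⟩
  filter_upwards [eventually_ge_atTop 2] with L hL
  have hL2 : (2:ℝ) ≤ L := by exact_mod_cast hL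
  have hl0 : (0:ℝ) < (L:ℝ) ^ 2 := by positivity
  have hint : Integrable (FF L) (hl.prod hl) :=
    hbint.mono' (hmeas L hL).aestronglyMeasurable (hdom L hL)
  rw [scal2 _ hl0, integral_prod _ hint]
  have h4 : ((L:ℝ) ^ 2) ^ 2 = (L:ℝ) ^ 4 := by ring
  rw [h4, mul_div_cancel_left₀ _ (by positivity)]
  refine integral_congr_ae (Eventually.of_forall (fun t => ?_))
  refine integral_congr_ae (Eventually.of_forall (fun s => ?_))
  rw [hFF]
  simp only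
  have hadd : (L:ℝ) ^ 2 * t + (L:ℝ) ^ 2 * s = (L:ℝ) ^ 2 * (t + s) := by ring
  have hiff : (L:ℝ) ^ 2 * t + (L:ℝ) ^ 2 * s ≤ ε * (L:ℝ) ^ 2 ↔ t + s ≤ ε := by
    rw [hadd, mul_comm ε]
    exact mul_le_mul_iff_right₀ hl0
  by_cases hts : t + s ≤ ε
  · rw [if_pos hts, if_pos (hiff.2 hts)]
  · rw [if_neg hts, if_neg (fun h => hts (hiff.1 h)), hadd]

end Pool.Agent.H971.AH
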