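import Pool.Agent.H523.AH.Stm

set_option autoImplicit false

/-! # AH Q2 (helper971 for helper523): coefficients of a difference of Fejer kernels -/

namespace Pool.Agent.H971.AH

open Finset Pool.Agent.H523.AH

theorem sumabs (n : ℕ) : ∑ l ∈ Ioo (-(n:ℤ)) (n:ℤ), ((n:ℝ) - |(l:ℝ)|) = (n:ℝ) ^ 2 := by
  induction n with
  | zero => simp
  | succ n ih =>
    rcases Nat.eq_zero_or_pos n with hn | hn
    · subst hn
      have h0 : Ioo (-((0 + 1 : ℕ) : ℤ)) ((0 + 1 : ℕ) : ℤ) = {0} := by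
        ext x
        simp only [mem_Ioo, mem_singleton]
        omega
      rw [h0, sum_singleton]
      simp
    · have h0 : Ioo (-((n + 1 : ℕ) : ℤ)) ((n + 1 : ℕ) : ℤ) =
          insert (n:ℤ) (insert (-(n:ℤ)) (Ioo (-(n:ℤ)) (n:ℤ))) := by
        ext x
        simp only [mem_Ioo, mem_insert]
        omega
      have hc : ((Ioo (-(n:ℤ)) (n:ℤ)).card : ℝ) = 2 * n - 1 := by
        rw [Int.card_Ioo]
        have h1 : ((n:ℤ) - -(n:ℤ) - 1).toNat = 2 * n - 1 := by omega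
        rw [h1, Nat.cast_sub (by omega)]
        push_cast
        ring
      have h2 : ∑ l ∈ Ioo (-(n:ℤ)) (n:ℤ), (((n + 1 : ℕ) : ℝ) - |(l:ℝ)|) =
          (n:ℝ) ^ 2 + (2 * n - 1) := by
        rw [← ih, ← hc, card_eq_sum_ones]
        push_cast
        rw [← sum_add_distrib]
        refine sum_congr rfl (fun l _ => ?_)
        ring
      rw [h0, sum_insert, sum_insert, h2]
      · push_cast
        rw [abs_neg, abs_of_nonneg (Nat.cast_nonneg n : (0:ℝ) ≤ n)]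
        ring
      · simp
      · simp only [mem_insert, mem_Ioo]
        omega

theorem sum_odd (n : ℕ) (f : ℤ → ℝ) (hf : ∀ l, f (-l) = - f l) :
    ∑ l ∈ Ioo (-(n:ℤ)) (n:ℤ), f l = 0 := by
  have h1 : ∑ l ∈ Ioo (-(n:ℤ)) (n:ℤ), f l = ∑ l ∈ Ioo (-(n:ℤ)) (n:ℤ), f (-l) := by
    refine sum_nbij' (fun l => -l) (fun l => -l) ?_ ?_ ?_ ?_ ?_
    · intro l hl
      rw [mem_Ioo] at hl ⊢
      omega
    · intro l hl
      rw [mem_Ioo] at hl ⊢
      omega
    · intro l _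
      simp
    · intro l _
      simp
    · intro l _
      simp
  have h2 : ∑ l ∈ Ioo (-(n:ℤ)) (n:ℤ), f (-l) = - ∑ l ∈ Ioo (-(n:ℤ)) (n:ℤ), f l := by
    rw [← sum_neg_distrib]
    exact sum_congr rfl (fun l _ => hf l)
  linarith

theorem main : S_Q2 := by
  intro h h₀ hh0 hh
  have hh0' : (0:ℝ) < h₀ := by exact_mod_cast hh0
  have hh' : (0:ℝ) < h := by exact_mod_cast (lt_of_lt_of_le hh0 hh)
  obtain ⟨t, ht⟩ : ∃ t : ℤ → ℝ, t = fun k : ℤ => max 0 (1 - |(k:ℝ)| / h) := ⟨_, rfl⟩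
  obtain ⟨s, hs⟩ : ∃ s : ℤ → ℝ, s = fun l : ℤ => (1 - |(l:ℝ)| / h₀) / h₀ := ⟨_, rfl⟩
  have hs1 : ∑ l ∈ Ioo (-(h₀:ℤ)) (h₀:ℤ), s l = 1 := by
    have h1 := sumabs h₀
    have h2 : ∀ l ∈ Ioo (-(h₀:ℤ)) (h₀:ℤ), s l = ((h₀:ℝ) - |(l:ℝ)|) / (h₀:ℝ) ^ 2 := by
      intro l _
      rw [hs]
      field_simp
    rw [sum_congr rfl h2, ← sum_div, h1, div_self (by positivity)]
  have habs : ∀ l : ℤ, ∀ n : ℕ, l ∈ Ioo (-(n:ℤ)) (n:ℤ) → |(l:ℝ)| ≤ n := by
    intro l n hl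
    rw [mem_Ioo] at hl
    rw [abs_le]
    constructor
    · have : (-(n:ℤ)) ≤ l := by omega
      exact_mod_cast this
    · have : l ≤ (n:ℤ) := by omega
      exact_mod_cast this
  have hs0 : ∀ l ∈ Ioo (-(h₀:ℤ)) (h₀:ℤ), 0 ≤ s l := by
    intro l hl
    rw [hs]
    have h1 := habs l h₀ hl
    apply div_nonneg _ hh0'.le
    rw [sub_nonneg, div_le_one hh0']
    exact h1
  have ht1 : ∀ k ∈ Ioo (-(h:ℤ)) (h:ℤ), t k = 1 - |(k:ℝ)| / h := by
    intro k hk
    have h1 := habs k h hk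
    rw [ht]
    apply max_eq_right
    rw [sub_nonneg, div_le_one hh']
    exact h1
  have ht0 : ∀ k, k ∉ Ioo (-(h:ℤ)) (h:ℤ) → t k = 0 := by
    intro k hk
    rw [ht]
    apply max_eq_left
    rw [sub_nonpos, one_le_div hh']
    have h1 : (h:ℤ) ≤ |k| := by
      rw [mem_Ioo] at hk
      rw [le_abs]
      omega
    exact_mod_cast h1
  have htl : ∀ j l : ℤ, |t j - t (j - l)| ≤ |(l:ℝ)| / h := by
    intro j l
    rw [ht]
    simp only
    rw [max_comm, max_comm (0:ℝ) (1 - |((j - l : ℤ) : ℝ)| / h)]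
    refine (abs_max_sub_max_le_abs _ _ _).trans ?_
    have h1 : 1 - |(j:ℝ)| / h - (1 - |((j - l : ℤ) : ℝ)| / h) =
        (|((j - l : ℤ) : ℝ)| - |(j:ℝ)|) / h := by ring
    rw [h1, abs_div, abs_of_pos hh']
    apply div_le_div_of_nonneg_right _ hh'.le
    refine (abs_abs_sub_abs_le _ _).trans ?_
    have h2 : ((j - l : ℤ) : ℝ) - (j:ℝ) = -(l:ℝ) := by push_cast; ring
    rw [h2, abs_neg]
  refine ⟨fun j => t j - ∑ l ∈ Ioo (-(h₀:ℤ)) (h₀:ℤ), s l * t (j - l), ?_, ?_⟩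
  · intro j
    have h1 : t j - ∑ l ∈ Ioo (-(h₀:ℤ)) (h₀:ℤ), s l * t (j - l) =
        ∑ l ∈ Ioo (-(h₀:ℤ)) (h₀:ℤ), s l * (t j - t (j - l)) := by
      have h2 : t j = ∑ l ∈ Ioo (-(h₀:ℤ)) (h₀:ℤ), s l * t j := by
        rw [← sum_mul, hs1, one_mul]
      calc t j - ∑ l ∈ Ioo (-(h₀:ℤ)) (h₀:ℤ), s l * t (j - l)
          = (∑ l ∈ Ioo (-(h₀:ℤ)) (h₀:ℤ), s l * t j) -
            ∑ l ∈ Ioo (-(h₀:ℤ)) (h₀:ℤ), s l * t (j - l) := by rw [← h2]
        _ = _ := by
            rw [← sum_sub_distrib]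
            refine sum_congr rfl (fun l _ => ?_)
            ring
    simp only
    rw [h1]
    calc |∑ l ∈ Ioo (-(h₀:ℤ)) (h₀:ℤ), s l * (t j - t (j - l))|
        ≤ ∑ l ∈ Ioo (-(h₀:ℤ)) (h₀:ℤ), |s l * (t j - t (j - l))| := abs_sum_le_sum_abs _ _
      _ ≤ ∑ l ∈ Ioo (-(h₀:ℤ)) (h₀:ℤ), s l * ((h₀:ℝ) / h) := by
          refine sum_le_sum (fun l hl => ?_)
          rw [abs_mul, abs_of_nonneg (hs0 l hl)]
          apply mul_le_mul_of_nonneg_left _ (hs0 l hl)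
          exact (htl j l).trans (div_le_div_of_nonneg_right (habs l h₀ hl) hh'.le)
      _ = (h₀:ℝ) / h := by rw [← sum_mul, hs1, one_mul]
  · intro θ
    have e1 : fej h θ = ∑ k ∈ Ioo (-(h:ℤ)) (h:ℤ), t k * Real.cos (k * θ) := by
      unfold fej
      exact sum_congr rfl (fun k hk => by rw [ht1 k hk])
    have e2 : fej h θ = ∑ k ∈ Ioo (-((h + h₀ : ℕ) : ℤ)) ((h + h₀ : ℕ) : ℤ),
        t k * Real.cos (k * θ) := by
      rw [e1]
      refine sum_subset ?_ ?_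
      · intro x hx
        rw [mem_Ioo] at hx ⊢
        push_cast
        omega
      · intro x _ hx
        rw [ht0 x hx, zero_mul]
    have e3 : fej h₀ θ / h₀ = ∑ l ∈ Ioo (-(h₀:ℤ)) (h₀:ℤ), s l * Real.cos (l * θ) := by
      unfold fej
      rw [sum_div, hs]
      refine sum_congr rfl (fun l _ => ?_)
      ring
    have e4 : ∑ l ∈ Ioo (-(h₀:ℤ)) (h₀:ℤ), s l * Real.sin (l * θ) = 0 := by
      refine sum_odd h₀ (fun l => s l * Real.sin (l * θ)) (fun l => ?_)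
      rw [hs]
      simp only
      push_cast
      rw [abs_neg, neg_mul, Real.sin_neg]
      ring
    have e5 : ∀ l ∈ Ioo (-(h₀:ℤ)) (h₀:ℤ),
        ∑ j ∈ Ioo (-((h + h₀ : ℕ) : ℤ)) ((h + h₀ : ℕ) : ℤ), t (j - l) * Real.cos (j * θ) =
        ∑ k ∈ Ioo (-(h:ℤ)) (h:ℤ), t k * Real.cos (((k + l : ℤ) : ℝ) * θ) := by
      intro l hl
      have e6 : ∑ k ∈ Ioo (-(h:ℤ)) (h:ℤ), t k * Real.cos (((k + l : ℤ) : ℝ) * θ) =
          ∑ j ∈ Ioo (-(h:ℤ) + l) ((h:ℤ) + l), t (j - l) * Real.cos (j * θ) := by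
        refine sum_nbij' (fun k => k + l) (fun j => j - l) ?_ ?_ ?_ ?_ ?_
        · intro k hk
          rw [mem_Ioo] at hk ⊢
          omega
        · intro k hk
          rw [mem_Ioo] at hk ⊢
          omega
        · intro k _
          simp
        · intro k _
          simp
        · intro k _
          simp only [add_sub_cancel_right]
      rw [e6]
      symm
      refine sum_subset ?_ ?_
      · intro x hx
        rw [mem_Ioo] at hx hl ⊢
        push_cast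
        omega
      · intro x _ hx
        rw [ht0 (x - l) ?_, zero_mul]
        intro hx2
        apply hx
        rw [mem_Ioo] at hx2 ⊢
        omega
    have e7 : ∑ j ∈ Ioo (-((h + h₀ : ℕ) : ℤ)) ((h + h₀ : ℕ) : ℤ),
        (∑ l ∈ Ioo (-(h₀:ℤ)) (h₀:ℤ), s l * t (j - l)) * Real.cos (j * θ) =
        fej h θ * fej h₀ θ / h₀ := by
      calc _ = ∑ j ∈ Ioo (-((h + h₀ : ℕ) : ℤ)) ((h + h₀ : ℕ) : ℤ),
            ∑ l ∈ Ioo (-(h₀:ℤ)) (h₀:ℤ), s l * (t (j - l) * Real.cos (j * θ)) := by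
              refine sum_congr rfl (fun j _ => ?_)
              rw [sum_mul]
              exact sum_congr rfl (fun l _ => by ring)
        _ = ∑ l ∈ Ioo (-(h₀:ℤ)) (h₀:ℤ), s l *
            ∑ j ∈ Ioo (-((h + h₀ : ℕ) : ℤ)) ((h + h₀ : ℕ) : ℤ), t (j - l) * Real.cos (j * θ) := by
              rw [sum_comm]
              exact sum_congr rfl (fun l _ => by rw [mul_sum])
        _ = ∑ l ∈ Ioo (-(h₀:ℤ)) (h₀:ℤ), s l *
            ∑ k ∈ Ioo (-(h:ℤ)) (h:ℤ), t k * Real.cos (((k + l : ℤ) : ℝ) * θ) :=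
              sum_congr rfl (fun l hl => by rw [e5 l hl])
        _ = ∑ k ∈ Ioo (-(h:ℤ)) (h:ℤ), ∑ l ∈ Ioo (-(h₀:ℤ)) (h₀:ℤ),
            (t k * Real.cos (k * θ) * (s l * Real.cos (l * θ)) -
              t k * Real.sin (k * θ) * (s l * Real.sin (l * θ))) := by
              rw [sum_comm]
              refine sum_congr rfl (fun l _ => ?_)
              rw [mul_sum]
              refine sum_congr rfl (fun k _ => ?_)
              push_cast
              rw [add_mul, Real.cos_add]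
              ring
        _ = ∑ k ∈ Ioo (-(h:ℤ)) (h:ℤ), t k * Real.cos (k * θ) * (fej h₀ θ / h₀) := by
              refine sum_congr rfl (fun k _ => ?_)
              rw [sum_sub_distrib, ← mul_sum, ← mul_sum, e4, ← e3]
              ring
        _ = fej h θ * fej h₀ θ / h₀ := by
              rw [← sum_mul, ← e1]
              ring
    rw [← e7]
    conv_lhs => rw [e2]
    rw [← sum_sub_distrib]
    refine sum_congr rfl (fun j _ => ?_)
    ring

end Pool.Agent.H971.AH
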